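import Pool.Agent.Helper74.HamSat.GeTwo

set_option autoImplicit false
open Classical

namespace Pool.Agent.Results.MP_02ddb6_co.OverlapGeTwo

/-- For all `2 ≤ l < k` the minimum number of edges of an `l`-Hamiltonian saturated `k`-graph on
`n` vertices (`n` divisible by `k - l`) has order of magnitude `n ^ l`. -/
theorem result :
  ∀ k l : ℕ, 2 ≤ l → l < k →
    ∃ c C : ℝ, 0 < c ∧ 0 < C ∧ ∃ N : ℕ, ∀ n : ℕ, N ≤ n → (k - l) ∣ n →
      (∃ H : Finset (Finset (Fin n)),
          ((∀ e ∈ H, e.card = k) ∧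
           (¬ ∃ σ : Equiv.Perm (Fin n), ∀ i : ℕ, i < n / (k - l) →
              Finset.univ.filter (fun v : Fin n => ∃ j, j < k ∧ ((σ v : Fin n) : ℕ) = (i * (k - l) + j) % n) ∈ H) ∧
           (∀ e : Finset (Fin n), e.card = k → e ∉ H →
              ∃ σ : Equiv.Perm (Fin n), ∀ i : ℕ, i < n / (k - l) →
                Finset.univ.filter (fun v : Fin n => ∃ j, j < k ∧ ((σ v : Fin n) : ℕ) = (i * (k - l) + j) % n) ∈ insert e H)) ∧
          (H.card : ℝ) ≤ C * (n : ℝ) ^ l) ∧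
      (∀ H : Finset (Finset (Fin n)),
          ((∀ e ∈ H, e.card = k) ∧
           (¬ ∃ σ : Equiv.Perm (Fin n), ∀ i : ℕ, i < n / (k - l) →
              Finset.univ.filter (fun v : Fin n => ∃ j, j < k ∧ ((σ v : Fin n) : ℕ) = (i * (k - l) + j) % n) ∈ H) ∧
           (∀ e : Finset (Fin n), e.card = k → e ∉ H →
              ∃ σ : Equiv.Perm (Fin n), ∀ i : ℕ, i < n / (k - l) →
                Finset.univ.filter (fun v : Fin n => ∃ j, j < k ∧ ((σ v : Fin n) : ℕ) = (i * (k - l) + j) % n) ∈ insert e H)) →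
          c * (n : ℝ) ^ l ≤ (H.card : ℝ)) := by
  intro k l hl hlk
  exact Pool.Agent.Helper74.HamSat.goal_ge_two hl hlk

end Pool.Agent.Results.MP_02ddb6_co.OverlapGeTwo
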